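import Pool.Agent.Helper520_wt.Bounds

set_option autoImplicit false

/-!
Planar triangle-free graphs of maximum degree at most three whose 5-cycles are pairwise disjoint:
bounds below three for the circular chromatic number. Planarity is by rotation systems and
Euler's formula (`Pool.Agent.H239R2.Planar.IsPlanar`).
-/

namespace Pool.Agent.Results.MP_392c8e_co.DisjointFiveCycles

open SimpleGraph

/-- `G` has a `(k, d)`-colouring. -/
def HasColouring {V : Type} (G : SimpleGraph V) (k d : ℕ) : Prop :=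
  ∃ c : V → ZMod k, ∀ u v, G.Adj u v → d ≤ (c u - c v).val ∧ (c u - c v).val ≤ k - d

/-- Three 5-cycles with pairwise different vertex sets which all meet the 7-cycle `b`. -/
def MeetsThree {V : Type} {G : SimpleGraph V} (b : Copy (cycleGraph 7) G) : Prop :=
  ∃ a₁ a₂ a₃ : Copy (cycleGraph 5) G,
    Set.range a₁ ≠ Set.range a₂ ∧ Set.range a₁ ≠ Set.range a₃ ∧ Set.range a₂ ≠ Set.range a₃ ∧
    ¬ Disjoint (Set.range a₁) (Set.range b) ∧ ¬ Disjoint (Set.range a₂) (Set.range b) ∧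
    ¬ Disjoint (Set.range a₃) (Set.range b)

/-- Let `G` be a finite planar triangle-free graph of maximum degree at most three in which two
5-cycles with different vertex sets are always disjoint.
(1) If all vertices of every 7-cycle which meets three 5-cycles lie on 5-cycles, then `G` has a
`(k, d)`-colouring with `k / d < 3`.
(2) If no 7-cycle meets three 5-cycles, then `G` has a `(110, 37)`-colouring.
(3) If two 5-cycles with different vertex sets are always at distance at least three, then `G`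
has a `(90, 31)`-colouring. -/
theorem result (V : Type) [Fintype V] (G : SimpleGraph V)
    (hplanar : Pool.Agent.H239R2.Planar.IsPlanar G)
    (htriangle : G.CliqueFree 3)
    (hdegree : ∀ v, (G.neighborSet v).ncard ≤ 3)
    (h5 : ∀ a b : Copy (cycleGraph 5) G,
      Set.range a = Set.range b ∨ Disjoint (Set.range a) (Set.range b)) :
    ((∀ b : Copy (cycleGraph 7) G, MeetsThree b →
        ∀ i, ∃ a : Copy (cycleGraph 5) G, b i ∈ Set.range a) →
      ∃ k d : ℕ, 0 < d ∧ 2 * d ≤ k ∧ k < 3 * d ∧ HasColouring G k d) ∧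
    ((∀ b : Copy (cycleGraph 7) G, ¬ MeetsThree b) → HasColouring G 110 37) ∧
    ((∀ a b : Copy (cycleGraph 5) G, Set.range a = Set.range b ∨
        ∀ u ∈ Set.range a, ∀ v ∈ Set.range b, 3 ≤ G.edist u v) → HasColouring G 90 31) := by
  classical
  have H : Pool.Agent.Helper520.Dis5 G := by
    refine ⟨htriangle, hdegree, ?_⟩
    intro a b ha hb i j hij
    obtain ⟨c, hc⟩ := Pool.Agent.Helper520.copy_of_cyc ha
    obtain ⟨d, hd⟩ := Pool.Agent.Helper520.copy_of_cyc hb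
    have hca : (c : Fin 5 → V) = a := funext hc
    have hdb : (d : Fin 5 → V) = b := funext hd
    rcases h5 c d with h | h
    · rw [hca, hdb] at h; exact h
    · rw [hca, hdb] at h
      exact absurd rfl (h.ne_of_mem ⟨i, hij⟩ ⟨j, rfl⟩)
  have hon : ∀ v, (∃ a : Copy (cycleGraph 5) G, v ∈ Set.range a) → Pool.Agent.Helper520.On5 G v := by
    rintro v ⟨a, i, rfl⟩
    exact ⟨fun i => a i, Pool.Agent.Helper520.cyc_of_copy a, i, rfl⟩
  -- a closed sequence of length seven as a copy of the cycle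
  have hcopy : ∀ f : ℕ → V, Pool.Agent.R50.OddCycle.Closed G 7 f →
      (∀ i < 7, ∀ j < 7, f i = f j → i = j) →
      ∃ b : Copy (cycleGraph 7) G, ∀ i : Fin 7, b i = f i.1 := by
    intro f hf hinj
    exact Pool.Agent.Helper520.copy_of_cyc (Pool.Agent.Helper520.cyc_of_closed hf hinj)
  have hmeet : ∀ (f : ℕ → V) (b : Copy (cycleGraph 7) G), (∀ i : Fin 7, b i = f i.1) →
      ∀ S₁ S₂ S₃ : Set V, Pool.Agent.Helper520.IsQ G S₁ → Pool.Agent.Helper520.IsQ G S₂ →
      Pool.Agent.Helper520.IsQ G S₃ → S₁ ≠ S₂ → S₁ ≠ S₃ → S₂ ≠ S₃ →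
      (∃ i < 7, f i ∈ S₁) → (∃ i < 7, f i ∈ S₂) → (∃ i < 7, f i ∈ S₃) → MeetsThree b := by
    intro f b hb S₁ S₂ S₃ h1 h2 h3 n12 n13 n23 m1 m2 m3
    obtain ⟨a₁, ha₁, r1⟩ := h1
    obtain ⟨a₂, ha₂, r2⟩ := h2
    obtain ⟨a₃, ha₃, r3⟩ := h3
    obtain ⟨c₁, hc₁⟩ := Pool.Agent.Helper520.copy_of_cyc ha₁
    obtain ⟨c₂, hc₂⟩ := Pool.Agent.Helper520.copy_of_cyc ha₂
    obtain ⟨c₃, hc₃⟩ := Pool.Agent.Helper520.copy_of_cyc ha₃
    have e1 : Set.range c₁ = S₁ := by
      rw [← r1, show (c₁ : Fin 5 → V) = a₁ from funext hc₁]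
    have e2 : Set.range c₂ = S₂ := by
      rw [← r2, show (c₂ : Fin 5 → V) = a₂ from funext hc₂]
    have e3 : Set.range c₃ = S₃ := by
      rw [← r3, show (c₃ : Fin 5 → V) = a₃ from funext hc₃]
    have hnd : ∀ S : Set V, (∃ i < 7, f i ∈ S) → ¬ Disjoint S (Set.range b) := by
      rintro S ⟨i, hi, hiS⟩ hdis
      exact absurd rfl (hdis.ne_of_mem hiS ⟨⟨i, hi⟩, hb ⟨i, hi⟩⟩)
    refine ⟨c₁, c₂, c₃, ?_, ?_, ?_, ?_, ?_, ?_⟩
    · rw [e1, e2]; exact n12
    · rw [e1, e3]; exact n13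
    · rw [e2, e3]; exact n23
    · rw [e1]; exact hnd _ m1
    · rw [e2]; exact hnd _ m2
    · rw [e3]; exact hnd _ m3
  refine ⟨fun h7 => ?_, fun h7 => ?_, fun hd => ?_⟩
  · refine Pool.Agent.Helper520.dis_lt_three hplanar H ?_
    intro f hf hinj S₁ S₂ S₃ h1 h2 h3 n12 n13 n23 m1 m2 m3 i hi
    obtain ⟨b, hb⟩ := hcopy f hf hinj
    obtain ⟨a, ha⟩ := h7 b (hmeet f b hb S₁ S₂ S₃ h1 h2 h3 n12 n13 n23 m1 m2 m3) ⟨i, hi⟩
    rw [hb ⟨i, hi⟩] at ha
    exact hon _ ⟨a, ha⟩
  · exact Pool.Agent.Helper520.dis_110_37 hplanar H (fun f hf hinj S₁ S₂ S₃ h1 h2 h3 n12 n13 n23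
      m1 m2 m3 => by
        obtain ⟨b, hb⟩ := hcopy f hf hinj
        exact h7 b (hmeet f b hb S₁ S₂ S₃ h1 h2 h3 n12 n13 n23 m1 m2 m3))
  · refine Pool.Agent.Helper520.dis_90_31 hplanar H ?_
    rintro S S' ⟨a, ha, rfl⟩ ⟨b, hb, rfl⟩ hne s hs s' hs' p
    obtain ⟨c, hc⟩ := Pool.Agent.Helper520.copy_of_cyc ha
    obtain ⟨d, hd'⟩ := Pool.Agent.Helper520.copy_of_cyc hb
    have hca : (c : Fin 5 → V) = a := funext hc
    have hdb : (d : Fin 5 → V) = b := funext hd'
    rcases hd c d with h | h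
    · rw [hca, hdb] at h
      exact absurd h hne
    · rw [hca, hdb] at h
      have h2 := (h s hs s' hs').trans (Walk.edist_le p)
      exact_mod_cast h2

end Pool.Agent.Results.MP_392c8e_co.DisjointFiveCycles
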