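import Pool.Agent.Helper520_wt.Far3

set_option autoImplicit false

/-!
Planar triangle-free graphs of maximum degree at most three whose 5-cycles are pairwise at
distance at least 13 have circular chromatic number at most `20/7`. Planarity is by rotation
systems and Euler's formula (`Pool.Agent.H239R2.Planar.IsPlanar`).
-/

namespace Pool.Agent.Results.MP_392c8e_co.FarFiveCycles

open SimpleGraph

/-- Let `G` be a finite planar triangle-free graph of maximum degree at most three in which two
5-cycles with different vertex sets are always at distance at least 13. Then `G` has a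
`(20, 7)`-colouring. -/
theorem result (V : Type) [Fintype V] (G : SimpleGraph V)
    (hplanar : Pool.Agent.H239R2.Planar.IsPlanar G)
    (htriangle : G.CliqueFree 3)
    (hdegree : ∀ v, (G.neighborSet v).ncard ≤ 3)
    (h5 : ∀ a b : Copy (cycleGraph 5) G,
      Set.range a = Set.range b ∨ ∀ u ∈ Set.range a, ∀ v ∈ Set.range b, 13 ≤ G.edist u v) :
    ∃ c : V → ZMod 20, ∀ u v, G.Adj u v → 7 ≤ (c u - c v).val ∧ (c u - c v).val ≤ 13 := by
  refine Pool.Agent.Helper520.far5_main hplanar ⟨htriangle, hdegree, ?_⟩
  intro a b ha hb hne i j p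
  obtain ⟨c, hc⟩ := Pool.Agent.Helper520.copy_of_cyc ha
  obtain ⟨d, hd⟩ := Pool.Agent.Helper520.copy_of_cyc hb
  have hca : (c : Fin 5 → V) = a := funext hc
  have hdb : (d : Fin 5 → V) = b := funext hd
  rcases h5 c d with h | h
  · rw [hca, hdb] at h
    exact absurd h hne
  · rw [hca, hdb] at h
    have h1 := h (a i) ⟨i, rfl⟩ (b j) ⟨j, rfl⟩
    have h2 := h1.trans (Walk.edist_le p)
    exact_mod_cast h2

end Pool.Agent.Results.MP_392c8e_co.FarFiveCycles
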