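import Pool.Agent.Helper520_wt.Iso2

set_option autoImplicit false

/-!
Planar triangle-free graphs of maximum degree at most three with isolated 5-cycles have circular
chromatic number at most `20/7`; form in which a 7-cycle may share vertices with 5-cycles.
Planarity is by rotation systems and Euler's formula (`Pool.Agent.H239R2.Planar.IsPlanar`).
-/

namespace Pool.Agent.Results.MP_392c8e_co.IsolatedFiveCyclesStrong

open SimpleGraph

/-- Let `G` be a finite planar triangle-free graph of maximum degree at most three in which two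
5-cycles with different vertex sets are disjoint. Suppose that every 7-cycle is disjoint from all
5-cycles, or shares at least three vertices with one 5-cycle and none with the 5-cycles which have
another vertex set, or is covered by two 5-cycles; and that no 9-cycle has exactly one vertex on
no 5-cycle. Then `G` has a `(20, 7)`-colouring. -/
theorem result (V : Type) [Fintype V] (G : SimpleGraph V)
    (hplanar : Pool.Agent.H239R2.Planar.IsPlanar G)
    (htriangle : G.CliqueFree 3)
    (hdegree : ∀ v, (G.neighborSet v).ncard ≤ 3)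
    (h5 : ∀ a b : Copy (cycleGraph 5) G,
      Set.range a = Set.range b ∨ Disjoint (Set.range a) (Set.range b))
    (h7 : ∀ b : Copy (cycleGraph 7) G,
      (∀ a : Copy (cycleGraph 5) G, Disjoint (Set.range a) (Set.range b)) ∨
      (∃ a : Copy (cycleGraph 5) G, 3 ≤ (Set.range a ∩ Set.range b).ncard ∧
        ∀ a' : Copy (cycleGraph 5) G, Set.range a' = Set.range a ∨
          Disjoint (Set.range a') (Set.range b)) ∨
      (∃ a a' : Copy (cycleGraph 5) G, Set.range b ⊆ Set.range a ∪ Set.range a'))
    (h9 : ∀ b : Copy (cycleGraph 9) G,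
      {i | ∀ a : Copy (cycleGraph 5) G, b i ∉ Set.range a}.ncard ≠ 1) :
    ∃ c : V → ZMod 20, ∀ u v, G.Adj u v → 7 ≤ (c u - c v).val ∧ (c u - c v).val ≤ 13 := by
  classical
  have hon : ∀ v, Pool.Agent.Helper520.On5 G v ↔ ∃ a : Copy (cycleGraph 5) G, v ∈ Set.range a := by
    intro v
    constructor
    · rintro ⟨a, ha, i, rfl⟩
      obtain ⟨c, hc⟩ := Pool.Agent.Helper520.copy_of_cyc ha
      exact ⟨c, i, hc i⟩
    · rintro ⟨a, i, rfl⟩
      exact ⟨fun i => a i, Pool.Agent.Helper520.cyc_of_copy a, i, rfl⟩
  have hQ : ∀ S : Set V, Pool.Agent.Helper520.IsQ G S ↔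
      ∃ a : Copy (cycleGraph 5) G, Set.range a = S := by
    intro S
    constructor
    · rintro ⟨a, ha, rfl⟩
      obtain ⟨c, hc⟩ := Pool.Agent.Helper520.copy_of_cyc ha
      exact ⟨c, by rw [show (c : Fin 5 → V) = a from funext hc]⟩
    · rintro ⟨a, rfl⟩
      exact ⟨fun i => a i, Pool.Agent.Helper520.cyc_of_copy a, rfl⟩
  refine Pool.Agent.Helper520.iso7_main hplanar ⟨htriangle, hdegree, ?_⟩ ⟨?_, ?_⟩
  · intro a b ha hb i j hij
    obtain ⟨c, hc⟩ := Pool.Agent.Helper520.copy_of_cyc ha
    obtain ⟨d, hd⟩ := Pool.Agent.Helper520.copy_of_cyc hb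
    have hca : (c : Fin 5 → V) = a := funext hc
    have hdb : (d : Fin 5 → V) = b := funext hd
    rcases h5 c d with h | h
    · rw [hca, hdb] at h; exact h
    · rw [hca, hdb] at h
      exact absurd rfl (h.ne_of_mem ⟨i, hij⟩ ⟨j, rfl⟩)
  · intro f hf hinj
    obtain ⟨b, hb⟩ := Pool.Agent.Helper520.copy_of_cyc
      (Pool.Agent.Helper520.cyc_of_closed hf hinj)
    have hmem : ∀ i < 7, f i ∈ Set.range b := fun i hi => ⟨⟨i, hi⟩, hb ⟨i, hi⟩⟩
    rcases h7 b with h | ⟨a, h3, h⟩ | ⟨a, a', h⟩
    · left
      intro i hi hon5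
      obtain ⟨a, ha⟩ := (hon _).mp hon5
      exact absurd rfl ((h a).ne_of_mem ha (hmem i hi))
    · right; left
      refine ⟨Set.range a, (hQ _).mpr ⟨a, rfl⟩, ?_, ?_⟩
      · have h6 : 3 ≤ ((Finset.range 7).filter (fun i => f i ∈ Set.range a)).card := by
          refine h3.trans ?_
          have h4 : Set.range a ∩ Set.range b ⊆
              f '' (((Finset.range 7).filter (fun i => f i ∈ Set.range a) : Finset ℕ) : Set ℕ) := by
            rintro x ⟨hxa, i, rfl⟩
            refine ⟨i.1, ?_, (hb i).symm⟩
            rw [Finset.coe_filter]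
            refine ⟨Finset.mem_range.mpr i.2, ?_⟩
            rw [← hb i]; exact hxa
          refine (Set.ncard_le_ncard h4 ((Finset.finite_toSet _).image _)).trans ?_
          refine (Set.ncard_image_le (Finset.finite_toSet _)).trans ?_
          rw [Set.ncard_coe_finset]
        rw [Finset.card_filter] at h6
        convert h6
      · rintro S' hS' ⟨i, hi, hiS⟩
        obtain ⟨a', rfl⟩ := (hQ S').mp hS'
        rcases h a' with h5 | h5
        · exact h5
        · exact absurd rfl (h5.ne_of_mem hiS (hmem i hi))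
    · right; right
      refine ⟨Set.range a, Set.range a', (hQ _).mpr ⟨a, rfl⟩, (hQ _).mpr ⟨a', rfl⟩, ?_⟩
      intro i hi
      exact h (hmem i hi)
  · intro f hf hinj hcard
    obtain ⟨b, hb⟩ := Pool.Agent.Helper520.copy_of_cyc
      (Pool.Agent.Helper520.cyc_of_closed hf hinj)
    apply h9 b
    rw [← hcard]
    have h1 : {i : Fin 9 | ∀ a : Copy (cycleGraph 5) G, b i ∉ Set.range a} =
        ((Finset.univ.filter (fun i : Fin 9 => ¬ Pool.Agent.Helper520.On5 G (f i.1)) :
          Finset (Fin 9)) : Set (Fin 9)) := by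
      ext i
      simp only [Set.mem_ofPred_eq, Finset.coe_filter, Finset.mem_univ, true_and]
      rw [hon, hb i]
      push Not
      rfl
    rw [h1, Set.ncard_coe_finset, Finset.card_filter, Finset.sum_range]
    refine Finset.sum_congr rfl fun i _ => ?_
    split_ifs <;> simp_all

end Pool.Agent.Results.MP_392c8e_co.IsolatedFiveCyclesStrong
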